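import Pool.Agent.Helper181_Braid.Inst
import Pool.Agent.Helper754_LD.Class

/-!
# The number of special braids on n strands

There are exactly 1, 2, 4, 10 special braids on 1, 2, 3, 4 strands, and infinitely many on
`n` strands for every `n ≥ 5`.
-/

namespace Pool.Agent.Results.MP_c15459_al.SpecialBraidNumbers

open SpecialBraids

theorem result :
    (specialIn 1).encard = 1 ∧ (specialIn 2).encard = 2 ∧ (specialIn 3).encard = 4 ∧
      (specialIn 4).encard = 10 ∧ ∀ n : ℕ, 5 ≤ n → (specialIn n).Infinite :=
  ⟨encard_specialIn_one, encard_specialIn_two, encard_specialIn_three,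
    encard_specialIn_four (fun _ _ hs ht h => LDMon.main P.irr P.hR hs ht h),
    fun _ hn => infinite_of_five_le hn⟩

end Pool.Agent.Results.MP_c15459_al.SpecialBraidNumbers
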